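import Pool.Agent.H51.MF.Base

/-! # LT: Lemma T. -/

set_option linter.unusedSectionVars false
set_option autoImplicit false

namespace Pool.Agent.H51.MF

open Module Pool.Agent.H51.T2

universe u v

variable {K : Type v} [Field K] {A : Type u} [Ring A] [Algebra K A]

/-- Summands of a rigid map compatible with `f₀`. -/
theorem LT_rz (hCLS : S_CLS K A) {c : Coo K A} {f₀ g a b : TC K A} {η : Fin c.n → ℤ}
    (h : Rz c f₀ g η) (e : Iso g.f (a.add b).f) :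
    ∃ α β : Fin c.n → ℤ, Rz c f₀ a α ∧ Rz c f₀ b β ∧
      ∀ X : FM K A, InW f₀ X → η ⬝ᵥ c.v X = α ⬝ᵥ c.v X + β ⬝ᵥ c.v X := by
  obtain ⟨α, hα⟩ := (hCLS c).1 a
  obtain ⟨β, hβ⟩ := (hCLS c).1 b
  have h1 : EZero (a.f.prodMap b.f) (a.f.prodMap b.f) := h.rig.iso e
  have h2 : EZero f₀.f (a.f.prodMap b.f) := EZero.iso h.comp.1 (Iso.refl _) e
  have h3 : EZero (a.f.prodMap b.f) f₀.f := EZero.iso h.comp.2 e (Iso.refl _)
  refine ⟨α, β, ⟨h1.of_prod_left_fst.of_prod_right_fst, ⟨h2.of_prod_right_fst,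
    h3.of_prod_left_fst⟩, fun X _ => hα X⟩, ⟨h1.of_prod_left_snd.of_prod_right_snd,
    ⟨h2.of_prod_right_snd, h3.of_prod_left_snd⟩, fun X _ => hβ X⟩, fun X hX => ?_⟩
  rw [← h.cl X hX, ← hα X, ← hβ X, cl_isoTC e, cl_addTC]

/-- The functional of a rigid map is in the cone iff ... (one direction). -/
theorem LT_hh (hNUM : S_NUM K A) {c : Coo K A} {f₀ g : TC K A} {Y Z : FM K A}
    {L : Set (Fin c.n → ℤ)} {η : Fin c.n → ℤ} (hf : Rigid f₀.f) (hY : InW f₀ Y)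
    (h : Rz c f₀ g η) (hF : InF (VV c f₀ Y Z) L η) : HH g.f Y := by
  rw [(hNUM c f₀ g η Y hf h hY).2]
  intro S hS
  have h1 := hF.1 (- c.v (Y.sub S)) (Or.inl ⟨S, hS, rfl⟩)
  rw [dotProduct_neg] at h1
  linarith

theorem LT_tt (hNUM : S_NUM K A) {c : Coo K A} {f₀ g : TC K A} {Y Z : FM K A}
    {L : Set (Fin c.n → ℤ)} {η : Fin c.n → ℤ} (hf : Rigid f₀.f) (hZ : InW f₀ Z)
    (h : Rz c f₀ g η) (hF : InF (VV c f₀ Y Z) L η) : TT g.f Z := by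
  rw [(hNUM c f₀ g η Z hf h hZ).1]
  intro S hS
  exact hF.1 _ (Or.inr ⟨S, hS, rfl⟩)

/-- A map with `HH` on `Y` and `TT` on `Z` has its class in the cone without equations. -/
theorem LT_cone {c : Coo K A} {f₀ a : TC K A} {Y Z : FM K A} {α : Fin c.n → ℤ}
    (ha : Rz c f₀ a α) (h1 : HH a.f Y) (h2 : TT a.f Z) :
    ∀ w ∈ VV c f₀ Y Z, 0 ≤ α ⬝ᵥ w := by
  rintro w (⟨S, hS, rfl⟩ | ⟨S, hS, rfl⟩)
  · have h3 := hh_cl (hh_sub h1 S)
    rw [ha.cl _ hS] at h3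
    rw [dotProduct_neg]
    linarith
  · have h3 := tt_cl (tt_quot h2 S)
    rw [ha.cl _ hS] at h3
    exact h3

/-- The vectors of `VV` come from the wide subcategory. -/
theorem LT_VV {c : Coo K A} {f₀ : TC K A} {Y Z : FM K A} {η α β : Fin c.n → ℤ}
    (h : ∀ X : FM K A, InW f₀ X → η ⬝ᵥ c.v X = α ⬝ᵥ c.v X + β ⬝ᵥ c.v X) :
    ∀ w ∈ VV c f₀ Y Z, η ⬝ᵥ w = α ⬝ᵥ w + β ⬝ᵥ w := by
  rintro w (⟨S, hS, rfl⟩ | ⟨S, hS, rfl⟩)
  · rw [dotProduct_neg, dotProduct_neg, dotProduct_neg, h _ hS]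
    ring
  · exact h _ hS

theorem LT_Le (hNUM : S_NUM K A) {c : Coo K A} {f₀ g a : TC K A} {Y : FM K A}
    {θ η α : Fin c.n → ℤ} (hf : Rigid f₀.f) (h : Rz c f₀ g η) (ha : Rz c f₀ a α)
    (hga : ∀ X : FM K A, TT g.f X → TT a.f X) (hle : Le c f₀ Y θ η) : Le c f₀ Y θ α := by
  intro X hX
  have h1 := hle X hX
  have h2 : TT g.f X := (hNUM c f₀ g η X hf h hX.2.1).1.2 h1.1
  exact ⟨(hNUM c f₀ a α X hf ha hX.2.1).1.1 (hga X h2), hX.2⟩

/-- The functionals of the summands are in the cone. -/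
theorem LT_sum (hNUM : S_NUM K A) (hCLS : S_CLS K A) {c : Coo K A} {f₀ g a b : TC K A}
    {Y Z : FM K A} {L : Set (Fin c.n → ℤ)} {θ η : Fin c.n → ℤ} (hf : Rigid f₀.f)
    (hY : InW f₀ Y) (hZ : InW f₀ Z) (hL : L ⊆ VV c f₀ Y Z)
    (h : Rz c f₀ g η) (hF : InF (VV c f₀ Y Z) L η) (hle : Le c f₀ Y θ η)
    (e : Iso g.f (a.add b).f) :
    ∃ α β : Fin c.n → ℤ, (Rz c f₀ a α ∧ InF (VV c f₀ Y Z) L α ∧ Le c f₀ Y θ α) ∧
      (Rz c f₀ b β ∧ InF (VV c f₀ Y Z) L β ∧ Le c f₀ Y θ β) ∧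
      ∀ w ∈ WV c f₀, η ⬝ᵥ w = α ⬝ᵥ w + β ⬝ᵥ w := by
  obtain ⟨α, β, ha, hb, hab⟩ := LT_rz hCLS h e
  have hh := LT_hh hNUM hf hY h hF
  have ht := LT_tt hNUM hf hZ h hF
  have hh2 := hh_addTC.1 (hh_isoTC e hh)
  have ht2 := tt_addTC.1 (tt_isoTC e ht)
  have ca := LT_cone ha hh2.1 ht2.1
  have cb := LT_cone hb hh2.2 ht2.2
  have hw := LT_VV (Y := Y) (Z := Z) hab
  refine ⟨α, β, ⟨ha, ⟨ca, fun w hw' => ?_⟩, ?_⟩, ⟨hb, ⟨cb, fun w hw' => ?_⟩, ?_⟩, ?_⟩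
  · have h1 := hw w (hL hw')
    rw [hF.2 w hw'] at h1
    have h2 := ca w (hL hw')
    have h3 := cb w (hL hw')
    linarith
  · exact LT_Le hNUM hf h ha (fun X hX => (tt_addTC.1 (tt_isoTC e hX)).1) hle
  · have h1 := hw w (hL hw')
    rw [hF.2 w hw'] at h1
    have h2 := ca w (hL hw')
    have h3 := cb w (hL hw')
    linarith
  · exact LT_Le hNUM hf h hb (fun X hX => (tt_addTC.1 (tt_isoTC e hX)).2) hle
  · rintro w ⟨X, hX, rfl⟩
    exact hab X hX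

theorem LT_size0 {c : Coo K A} {f₀ g : TC K A} {η : Fin c.n → ℤ} (h : Rz c f₀ g η)
    (h0 : g.size = 0) : ¬ NZ (WV c f₀) η := by
  rintro ⟨w, ⟨X, hX, rfl⟩, hne⟩
  apply hne
  rw [← h.cl X hX]
  have h1 : finrank K g.P = 0 := by
    unfold TC.size at h0
    omega
  have h2 : finrank K g.Q = 0 := by
    unfold TC.size at h0
    omega
  have s1 : Subsingleton g.P := Module.finrank_zero_iff.1 h1
  have s2 : Subsingleton g.Q := Module.finrank_zero_iff.1 h2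
  have : Subsingleton (g.P →ₗ[A] X) := ⟨fun a b => by
    ext x
    rw [Subsingleton.elim x 0, map_zero, map_zero]⟩
  have : Subsingleton (g.Q →ₗ[A] X) := ⟨fun a b => by
    ext x
    rw [Subsingleton.elim x 0, map_zero, map_zero]⟩
  simp only [TC.cl, hd, Module.finrank_zero_of_subsingleton]
  simp

/-- Linear algebra: one of two independent functionals is independent of a third one. -/
theorem LT_ind {n : ℕ} {D : Set (Fin n → ℤ)} {θ θ' η : Fin n → ℤ} (h : Ind D θ θ')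
    (hη : NZ D η) : Ind D η θ ∨ Ind D η θ' := by
  by_contra hcon
  rw [not_or] at hcon
  obtain ⟨h1, h2⟩ := hcon
  unfold Ind at h1 h2
  push Not at h1 h2
  obtain ⟨a, b, h3, h4⟩ := h1
  obtain ⟨a', b', h5, h6⟩ := h2
  simp only [add_dotProduct, smul_dotProduct, smul_eq_mul] at h3 h5
  obtain ⟨w₀, hw₀, hne⟩ := hη
  have hb : b ≠ 0 := by
    intro hb
    have ha : a ≠ 0 := fun ha => h4 ha hb
    have := h3 w₀ hw₀
    rw [hb, zero_mul, add_zero] at this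
    rcases mul_eq_zero.1 this with h7 | h7
    · exact ha h7
    · exact hne h7
  have hb' : b' ≠ 0 := by
    intro hb'
    have ha' : a' ≠ 0 := fun ha' => h6 ha' hb'
    have := h5 w₀ hw₀
    rw [hb', zero_mul, add_zero] at this
    rcases mul_eq_zero.1 this with h7 | h7
    · exact ha' h7
    · exact hne h7
  have h7 := h (a' * b) (-(a * b')) (fun w hw => by
    simp only [add_dotProduct, smul_dotProduct, smul_eq_mul]
    have e1 := h3 w hw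
    have e2 := h5 w hw
    linear_combination a' * e1 - a * e2)
  have ha : a = 0 := by
    have := h7.2
    rcases mul_eq_zero.1 (neg_eq_zero.1 this) with h8 | h8
    · exact h8
    · exact absurd h8 hb'
  have h8 := h b 0 (fun w hw => by
    simp only [add_dotProduct, smul_dotProduct, smul_eq_mul]
    have e1 := h3 w hw
    rw [ha] at e1
    linear_combination e1)
  exact hb h8.1

theorem LT_nz_of_ind {n : ℕ} {D : Set (Fin n → ℤ)} {θ θ' : Fin n → ℤ} (h : Ind D θ θ') :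
    NZ D θ' := by
  by_contra hcon
  unfold NZ at hcon
  push Not at hcon
  have h1 := h 0 1 (fun w hw => by
    simp only [add_dotProduct, smul_dotProduct, smul_eq_mul]
    rw [hcon w hw]
    ring)
  exact one_ne_zero h1.2

theorem LT_nz_of_ind' {n : ℕ} {D : Set (Fin n → ℤ)} {θ θ' : Fin n → ℤ} (h : Ind D θ θ') :
    NZ D θ := by
  by_contra hcon
  unfold NZ at hcon
  push Not at hcon
  have h1 := h 1 0 (fun w hw => by
    simp only [add_dotProduct, smul_dotProduct, smul_eq_mul]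
    rw [hcon w hw]
    ring)
  exact one_ne_zero h1.1

theorem LT_min (Q : TC K A → Prop) (h : ∃ g, Q g) :
    ∃ g, Q g ∧ ∀ g', Q g' → g.size ≤ g'.size := by
  classical
  have h1 : ∃ n : ℕ, ∃ g, Q g ∧ g.size = n := by
    obtain ⟨g, hg⟩ := h
    exact ⟨_, g, hg, rfl⟩
  obtain ⟨g, hg, hn⟩ := Nat.find_spec h1
  refine ⟨g, hg, fun g' hg' => ?_⟩
  rw [hn]
  exact Nat.find_min' h1 ⟨g', hg', rfl⟩

/-- The admissible maps. -/
structure LTP (c : Coo K A) (f₀ : TC K A) (Y Z : FM K A) (L : Set (Fin c.n → ℤ))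
    (θ : Fin c.n → ℤ) (g : TC K A) (η : Fin c.n → ℤ) : Prop where
  rz : Rz c f₀ g η
  inF : InF (VV c f₀ Y Z) L η
  nz : NZ (WV c f₀) η
  le : Le c f₀ Y θ η

theorem LT_loc (hFIT : S_FIT K A) (hNUM : S_NUM K A) (hCLS : S_CLS K A) {c : Coo K A}
    {f₀ g : TC K A} {Y Z : FM K A} {L : Set (Fin c.n → ℤ)} {θ η : Fin c.n → ℤ}
    (hf : Rigid f₀.f) (hY : InW f₀ Y) (hZ : InW f₀ Z) (hL : L ⊆ VV c f₀ Y Z)
    (h : LTP c f₀ Y Z L θ g η)
    (hmin : ∀ g', (∃ η', LTP c f₀ Y Z L θ g' η') → g.size ≤ g'.size) : LocEnd g := by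
  intro s t hst
  obtain ⟨m, a, b, eP, eQ, h1, _, h3, h4, h5⟩ := hFIT g s t hst
  have e : Iso g.f (a.add b).f := by
    refine ⟨eP, eQ, ?_⟩
    ext x
    · exact (congrArg Prod.fst (h1 x)).symm
    · exact (congrArg Prod.snd (h1 x)).symm
  obtain ⟨α, β, ⟨ha, haF, hal⟩, ⟨hb, hbF, hbl⟩, hab⟩ :=
    LT_sum hNUM hCLS hf hY hZ hL h.rz h.inF h.le e
  obtain ⟨w, hw, hne⟩ := h.nz
  have h6 : α ⬝ᵥ w ≠ 0 ∨ β ⬝ᵥ w ≠ 0 := by
    by_contra hcon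
    push Not at hcon
    apply hne
    rw [hab w hw, hcon.1, hcon.2, add_zero]
  rcases h6 with h6 | h6
  · have h7 := hmin a ⟨α, ha, haF, ⟨w, hw, h6⟩, hal⟩
    right
    exact ⟨m, h4 (by omega)⟩
  · have h7 := hmin b ⟨β, hb, hbF, ⟨w, hw, h6⟩, hbl⟩
    left
    exact h5 (by omega)

variable (K A)

theorem s_LT (hFIT : S_FIT K A) (hSPL : S_SPL K A) (hREAL : S_REAL K A) (hNUM : S_NUM K A)
    (hLD : S_LD K A) (hCLS : S_CLS K A) : S_LT K A := by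
  intro hinf hr c f₀ Y Z L hf hY hZ hL θ θ' hθ hθ' hind hmax hle X hX
  have hrefl : Le c f₀ Y θ θ := fun _ h => h
  obtain ⟨g, hg⟩ := hREAL hinf hr c f₀ θ hf
  obtain ⟨g₁, ⟨η₁, hP1⟩, hmin1⟩ := LT_min (fun g => ∃ η, LTP c f₀ Y Z L θ g η)
    ⟨g, θ, hg, hθ, LT_nz_of_ind' hind, hrefl⟩
  have hloc := LT_loc hFIT hNUM hCLS hf hY hZ hL hP1 hmin1
  obtain ⟨ζ, hζ1, hζ2, hζ3⟩ : ∃ ζ, Ind (WV c f₀) η₁ ζ ∧ InF (VV c f₀ Y Z) L ζ ∧
      Le c f₀ Y θ ζ := by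
    rcases LT_ind hind hP1.nz with h | h
    · exact ⟨θ, h, hθ, hrefl⟩
    · exact ⟨θ', h, hθ', hle⟩
  obtain ⟨g', hg'⟩ := hREAL hinf hr c f₀ ζ hf
  obtain ⟨g₂, ⟨η₂, hP2, hi2⟩, hmin2⟩ := LT_min
    (fun g => ∃ η, LTP c f₀ Y Z L θ g η ∧ Ind (WV c f₀) η₁ η)
    ⟨g', ζ, ⟨hg', hζ2, LT_nz_of_ind hζ1, hζ3⟩, hζ1⟩
  have hBB : ∀ (g : TC K A) (η : Fin c.n → ℤ), LTP c f₀ Y Z L θ g η → ∀ X, Bp f₀ Y X →
      (TT g.f X ↔ TbN c f₀ θ X) := by
    intro g η hP X hX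
    rw [(hNUM c f₀ g η X hf hP.rz hX.1).1]
    constructor
    · intro h
      exact (hmax η hP.inF hP.nz hP.le X ⟨h, hX⟩).1
    · intro h
      exact (hP.le X ⟨h, hX⟩).1
  have h1 := hLD f₀ g₁ g₂ Y hf hP1.rz.rig hP2.rz.rig hP1.rz.comp hP2.rz.comp hY
    (LT_hh hNUM hf hY hP1.rz hP1.inF) (LT_hh hNUM hf hY hP2.rz hP2.inF)
    (fun X hX => (hBB g₁ η₁ hP1 X hX).trans (hBB g₂ η₂ hP2 X hX).symm) hloc ?_ X hX
  · exact (hBB g₁ η₁ hP1 X hX).1 h1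
  · rintro u m w m' hum hwm ⟨hb1, hb2⟩
    obtain ⟨g₃, e, hsize⟩ := hSPL g₁ g₂ u m w m' hum hwm hb1 hb2
    obtain ⟨α, β, ⟨ha, haF, hal⟩, ⟨hb, hbF, hbl⟩, hab⟩ :=
      LT_sum hNUM hCLS hf hY hZ hL hP2.rz hP2.inF hP2.le e
    have hi3 : Ind (WV c f₀) η₁ β := by
      intro a b h
      have h2 := hi2 (a - b) b (fun w hw => by
        have e1 := h w hw
        simp only [add_dotProduct, smul_dotProduct, smul_eq_mul] at e1 ⊢
        have e2 := hab w hw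
        obtain ⟨M, hM, rfl⟩ := hw
        have e3 : α ⬝ᵥ c.v M = η₁ ⬝ᵥ c.v M := by
          rw [← ha.cl M hM, ← hP1.rz.cl M hM]
        rw [e2, e3]
        linear_combination e1)
      have hb0 := h2.2
      have ha0 := h2.1
      exact ⟨by omega, hb0⟩
    have h4 := hmin2 g₃ ⟨β, ⟨hb, hbF, LT_nz_of_ind hi3, hbl⟩, hi3⟩
    have h5 : g₁.size = 0 := by omega
    exact LT_size0 hP1.rz h5 hP1.nz

end Pool.Agent.H51.MF
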