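import Pool.Agent.H51.MF.Base

/-! # PP: Proposition P, by induction on the rank. -/

set_option linter.unusedSectionVars false
set_option autoImplicit false

namespace Pool.Agent.H51.MF

open Module Pool.Agent.H51.T2

universe u v

theorem s_PP (K : Type v) [Field K] (A : Type u) [Ring A] [Algebra K A] (hPP1 : S_PP1 K A)
    (hPP2 : S_PP2 K A) : S_PP K A := by
  intro hinf hfd hr c
  have key : ∀ (r : ℕ) (f₀ : TC K A) (Y : FM K A), Rigid f₀.f → InW f₀ Y →
      1 ≤ rk (WV c f₀) → rk (WV c f₀) = r → PropP K A c f₀ Y := by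
    intro r
    induction r using Nat.strong_induction_on with
    | _ r ih =>
      intro f₀ Y hf hY h1 hr'
      rcases Nat.lt_or_ge (rk (WV c f₀)) 2 with h2 | h2
      · exact hPP1 hinf hfd hr c f₀ Y hf hY (by omega)
      · refine hPP2 hinf hfd hr c f₀ Y hf hY h2 fun f₁ Y₁ hf₁ hY₁ h3 h4 => ?_
        exact ih (rk (WV c f₁)) (by omega) f₁ Y₁ hf₁ hY₁ h3 rfl
  intro f₀ Y hf hY h1
  exact key _ f₀ Y hf hY h1 rfl

end Pool.Agent.H51.MF
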